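import Mathlib
import Pool.Agent.W437.HC.Act

/-!
# The Lie algebra that kills all rational forms killed by a complex matrix
-/

set_option linter.unusedSectionVars false

namespace Pool.Agent.W437.HC

open Matrix

variable {B : Type*} [Fintype B] [DecidableEq B]

/-- The rational form `c` is killed by the complex matrix `D`. -/
def IsH (D : Matrix B B ℂ) {κ : Type*} [Fintype κ] [DecidableEq κ] (c : (κ → B) → ℚ) : Prop :=
  act D (cst ℂ c) = 0

/-- The matrices that kill all rational forms killed by `D`. -/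
def lieM (D : Matrix B B ℂ) (K : Type*) [Field K] [CharZero K] : Submodule K (Matrix B B K) where
  carrier := {X | ∀ (n : ℕ) (c : (Fin n → B) → ℚ), IsH D c → act X (cst K c) = 0}
  zero_mem' := fun n c _ => act_zero_left _
  add_mem' := by
    intro X Y hX hY n c hc
    rw [act_add_left, hX n c hc, hY n c hc, add_zero]
  smul_mem' := by
    intro a X hX n c hc
    rw [act_smul_left, hX n c hc, smul_zero]

variable (D : Matrix B B ℂ) {K : Type*} [Field K] [CharZero K]

theorem isH_reindex {κ κ' : Type*} [Fintype κ] [DecidableEq κ] [Fintype κ'] [DecidableEq κ']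
    (e : κ ≃ κ') {c : (κ' → B) → ℚ} (hc : IsH D c) :
    IsH D (fun I : κ → B => c (fun k => I (e.symm k))) := by
  unfold IsH at hc ⊢
  have h := act_reindex e D (cst ℂ c)
  rw [hc] at h
  exact h

theorem lieM_kills {X : Matrix B B K} (hX : X ∈ lieM D K) {κ : Type*} [Fintype κ] [DecidableEq κ]
    {c : (κ → B) → ℚ} (hc : IsH D c) : act X (cst K c) = 0 := by
  let e : κ ≃ Fin (Fintype.card κ) := Fintype.equivFin κ
  have h1 := hX _ _ (isH_reindex D e.symm hc)
  have h2 := act_reindex e X (cst K (fun I : Fin (Fintype.card κ) → B =>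
    c (fun k => I (e.symm.symm k))))
  rw [h1] at h2
  have h3 : (fun I : κ → B => cst K (fun I : Fin (Fintype.card κ) → B =>
    c (fun k => I (e.symm.symm k))) (fun k => I (e.symm k))) = cst K c := by
    funext I
    simp [cst]
  rw [h3] at h2
  rw [h2]
  rfl

theorem D_mem : D ∈ lieM D ℂ := fun _ _ hc => hc

theorem lieM_bracket {X Y : Matrix B B K} (hX : X ∈ lieM D K) (hY : Y ∈ lieM D K) :
    X * Y - Y * X ∈ lieM D K := fun n c hc => act_bracket (hX n c hc) (hY n c hc)

/-- Conjugation by a complex structure in the Lie algebra. -/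
theorem lieM_conj [NeZero (2 : K)] {X J : Matrix B B K} (hX : X ∈ lieM D K) (hJ : J ∈ lieM D K)
    (hJ2 : J * J = -1) : J * X * J ∈ lieM D K := by
  have h1 := lieM_bracket D hJ (lieM_bracket D hJ hX)
  have h2 : J * X * J = (-(2 : K)⁻¹) • (J * (J * X - X * J) - (J * X - X * J) * J) - X := by
    have h3 : J * (J * X - X * J) - (J * X - X * J) * J =
        (J * J) * X - (2 : K) • (J * X * J) + X * (J * J) := by
      rw [two_smul]
      noncomm_ring
    rw [h3, hJ2]
    have h4 : (-1 : Matrix B B K) * X - (2 : K) • (J * X * J) + X * (-1 : Matrix B B K) =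
        -((2 : K) • (J * X * J) + (2 : K) • X) := by
      rw [two_smul K X, neg_one_mul, mul_neg_one]
      abel
    rw [h4, smul_neg, neg_smul, neg_neg, smul_add, smul_smul, smul_smul,
      inv_mul_cancel₀ (two_ne_zero), one_smul, one_smul]
    abel
  rw [h2]
  exact Submodule.sub_mem _ (Submodule.smul_mem _ _ h1) hX

theorem lam_act (lam : K →ₗ[ℚ] ℚ) (X : Matrix B B K) {κ : Type*} [Fintype κ] [DecidableEq κ]
    (c : (κ → B) → ℚ) (I : κ → B) : lam (act X (cst K c) I) = act (X.map lam) c I := by
  simp only [act, map_sum, cst]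
  refine Finset.sum_congr rfl fun k _ => Finset.sum_congr rfl fun j _ => ?_
  have h1 : X j (I k) * ((c (Function.update I k j) : ℚ) : K) =
      (c (Function.update I k j)) • X j (I k) := by
    rw [Rat.smul_def, mul_comm]
  rw [h1, map_smul, smul_eq_mul, Matrix.map_apply, mul_comm]

theorem eq_zero_of_lam {y : K} (h : ∀ lam : K →ₗ[ℚ] ℚ, lam y = 0) : y = 0 := by
  rw [← Module.forall_dual_apply_eq_zero_iff ℚ y]
  exact h

theorem map_mem {X : Matrix B B K} (hX : X ∈ lieM D K) (lam : K →ₗ[ℚ] ℚ) :
    X.map lam ∈ lieM D ℚ := by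
  intro n c hc
  funext I
  have h1 := lam_act lam X c I
  rw [hX n c hc, Pi.zero_apply, map_zero] at h1
  have h2 : cst ℚ c = c := by
    funext J
    simp [cst]
  rw [h2, ← h1]
  rfl

theorem mem_of_map {X : Matrix B B K} (hX : ∀ lam : K →ₗ[ℚ] ℚ, X.map lam ∈ lieM D ℚ) :
    X ∈ lieM D K := by
  intro n c hc
  funext I
  apply eq_zero_of_lam
  intro lam
  rw [lam_act]
  have h2 : cst ℚ c = c := by
    funext J
    simp [cst]
  have h1 := hX lam n c hc
  rw [h2] at h1
  rw [h1]
  rfl

/-- A rational form killed by all the rational elements of the Lie algebra is killed by all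
elements. -/
theorem kills_of_rat {κ : Type*} [Fintype κ] [DecidableEq κ] {c : (κ → B) → ℚ}
    (h : ∀ X ∈ lieM D ℚ, act X c = 0) {X : Matrix B B K} (hX : X ∈ lieM D K) :
    act X (cst K c) = 0 := by
  funext I
  apply eq_zero_of_lam
  intro lam
  rw [lam_act, h _ (map_mem D hX lam)]
  rfl

theorem isH_of_rat {κ : Type*} [Fintype κ] [DecidableEq κ] {c : (κ → B) → ℚ}
    (h : ∀ X ∈ lieM D ℚ, act X c = 0) : IsH D c := kills_of_rat D h (D_mem D)

theorem cast_mem {X : Matrix B B ℚ} (hX : X ∈ lieM D ℚ) :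
    X.map (fun x : ℚ => (x : K)) ∈ lieM D K := by
  intro n c hc
  rw [act_cst]
  have h2 : cst ℚ c = c := by
    funext J
    simp [cst]
  have h1 := hX n c hc
  rw [h2] at h1
  rw [h1, cst_zero]

/-- The form given by a matrix. -/
def bilc {K : Type*} (Om : Matrix B B K) : (Fin 2 → B) → K := fun I => Om (I 0) (I 1)

theorem act_bilc (X Om : Matrix B B K) (I : Fin 2 → B) :
    act X (bilc Om) I = (Xᵀ * Om + Om * X) (I 0) (I 1) := by
  simp only [act, bilc, Fin.sum_univ_two, Matrix.add_apply, Matrix.mul_apply,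
    Matrix.transpose_apply]
  refine congrArg₂ (fun x y : K => x + y) ?_ ?_
  · refine Finset.sum_congr rfl fun j _ => ?_
    rw [Function.update_self, Function.update_of_ne (by decide)]
  · refine Finset.sum_congr rfl fun j _ => ?_
    rw [Function.update_self, Function.update_of_ne (by decide), mul_comm]

theorem lieM_bil {Om : Matrix B B ℚ} (hOm : IsH D (bilc Om)) {X : Matrix B B K}
    (hX : X ∈ lieM D K) :
    Xᵀ * Om.map (fun x : ℚ => (x : K)) + Om.map (fun x : ℚ => (x : K)) * X = 0 := by
  have h1 := lieM_kills D hX hOm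
  ext i j
  have h2 := congrFun h1 ![i, j]
  have h3 : cst K (bilc Om) = bilc (Om.map (fun x : ℚ => (x : K))) := rfl
  rw [h3, act_bilc] at h2
  exact h2

theorem isH_bilc {Om : Matrix B B ℚ}
    (h : Dᵀ * Om.map (fun x : ℚ => (x : ℂ)) + Om.map (fun x : ℚ => (x : ℂ)) * D = 0) :
    IsH D (bilc Om) := by
  funext I
  have h3 : cst ℂ (bilc Om) = bilc (Om.map (fun x : ℚ => (x : ℂ))) := rfl
  rw [h3, act_bilc, h]
  rfl

/-- The trace form. -/
def trF (B : Type*) [Fintype B] [DecidableEq B] : LinearMap.BilinForm ℚ (Matrix B B ℚ) :=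
  LinearMap.mk₂ ℚ (fun X Y => trace (X * Y))
    (fun X Y Z => by rw [add_mul, trace_add])
    (fun a X Y => by rw [smul_mul_assoc, trace_smul])
    (fun X Y Z => by rw [mul_add, trace_add])
    (fun a X Y => by rw [mul_smul_comm, trace_smul])

theorem trF_apply (X Y : Matrix B B ℚ) : trF B X Y = trace (X * Y) := rfl

theorem trF_refl : (trF B).IsRefl := by
  intro X Y h
  rw [trF_apply] at h ⊢
  rw [trace_mul_comm]
  exact h

/-- The projection to the rational Lie algebra, if the trace form is nondegenerate on it. -/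
theorem exists_projection
    (hnd : ∀ X ∈ lieM D ℚ, (∀ Y ∈ lieM D ℚ, trace (X * Y) = 0) → X = 0) :
    ∃ p : Matrix B B ℚ →ₗ[ℚ] Matrix B B ℚ, (∀ A, p A ∈ lieM D ℚ) ∧ (∀ A ∈ lieM D ℚ, p A = A) ∧
      ∀ X ∈ lieM D ℚ, ∀ A, p (X * A - A * X) = X * p A - p A * X := by
  classical
  have hdisj : Disjoint (lieM D ℚ) ((trF B).orthogonal (lieM D ℚ)) := by
    rw [Submodule.disjoint_def]
    intro X hX hX'
    refine hnd X hX fun Y hY => ?_
    have h1 := hX' Y hY
    change trF B Y X = 0 at h1
    rw [trF_apply, trace_mul_comm] at h1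
    exact h1
  have hc : IsCompl (lieM D ℚ) ((trF B).orthogonal (lieM D ℚ)) :=
    (LinearMap.BilinForm.isCompl_orthogonal_iff_disjoint trF_refl).2 hdisj
  refine ⟨(lieM D ℚ).projection _ hc, fun A => Submodule.projection_apply_mem hc A,
    fun A hA => Submodule.projection_apply_of_mem_left hc hA, fun X hX A => ?_⟩
  set p := (lieM D ℚ).projection _ hc with hp
  have h1 : A - p A ∈ (trF B).orthogonal (lieM D ℚ) := by
    rw [← Submodule.projection_apply_eq_zero_iff hc, map_sub, ← hp]
    rw [sub_eq_zero]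
    exact (Submodule.projection_apply_of_mem_left hc (Submodule.projection_apply_mem hc A)).symm
  have h2 : X * (A - p A) - (A - p A) * X ∈ (trF B).orthogonal (lieM D ℚ) := by
    intro Y hY
    change trF B Y _ = 0
    rw [trF_apply]
    have h3 := h1 (Y * X - X * Y) (lieM_bracket D hY hX)
    change trF B _ _ = 0 at h3
    rw [trF_apply] at h3
    rw [← h3]
    generalize A - p A = C
    rw [mul_sub, sub_mul, trace_sub, trace_sub, mul_assoc, ← mul_assoc Y C X,
      trace_mul_comm (Y * C) X, mul_assoc]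
  have h4 : X * A - A * X = (X * p A - p A * X) + (X * (A - p A) - (A - p A) * X) := by
    noncomm_ring
  rw [h4, map_add, (Submodule.projection_apply_eq_zero_iff hc).2 h2, add_zero]
  exact Submodule.projection_apply_of_mem_left hc
    (lieM_bracket D hX (Submodule.projection_apply_mem hc A))

end Pool.Agent.W437.HC
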