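import Mathlib
import Pool.Agent.H194R3.CM.Defs
import Pool.Agent.H204R3.SP.FFT
import Pool.Agent.H204R3.SP.Lie
import Pool.Agent.H204R3.SP.AltSpan
import Pool.Agent.W437.HC.Period

/-!
# Hodge classes on the powers of a principally polarized abelian variety
-/

set_option linter.unusedSectionVars false

namespace Pool.Agent.W437.HC

open Matrix Pool.Agent.H204R3.CM Pool.Agent.H204R3.SP Pool.Agent.H194R3.CM

/-- The inclusion of the rational homology of the power `A ^ n` into its tangent space, where `A`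
is the quotient of `ℂ ^ g` by the lattice generated by the standard basis and by the columns of the
period matrix `Z`: in each of the `n` factors, `(a, b)` goes to `a + Z b`. -/
noncomputable def perPow {g : ℕ} (Z : Matrix (Fin g) (Fin g) ℂ) (n : ℕ) :
    (Fin n → Fin g ⊕ Fin g → ℚ) →+ (Fin n → Fin g → ℂ) where
  toFun w := fun j i => (w j (Sum.inl i) : ℂ) + ∑ k, Z i k * (w j (Sum.inr k) : ℂ)
  map_zero' := by
    funext j i
    simp
  map_add' v w := by
    funext j i
    simp only [Pi.add_apply, Rat.cast_add, mul_add, Finset.sum_add_distrib]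
    ring

variable {g : ℕ} (Z : Matrix (Fin g) (Fin g) ℂ)

theorem perPow_apply (n : ℕ) (w : Fin n → Fin g ⊕ Fin g → ℚ) (j : Fin n) (i : Fin g) :
    perPow Z n w j i = (w j (Sum.inl i) : ℂ) + ∑ k, Z i k * (w j (Sum.inr k) : ℂ) := rfl

/-- The real period map. -/
noncomputable def perR : (Fin g ⊕ Fin g → ℝ) →ₗ[ℝ] (Fin g → ℂ) where
  toFun x := fun i => (x (Sum.inl i) : ℂ) + ∑ k, Z i k * (x (Sum.inr k) : ℂ)
  map_add' v w := by
    funext i
    simp only [Pi.add_apply, Complex.ofReal_add, mul_add, Finset.sum_add_distrib]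
    ring
  map_smul' a w := by
    funext i
    simp only [Pi.smul_apply, smul_eq_mul, Complex.ofReal_mul, Complex.real_smul, RingHom.id_apply,
      mul_add, Finset.mul_sum]
    congr 1
    exact Finset.sum_congr rfl fun k _ => by ring

theorem perR_re (x : Fin g ⊕ Fin g → ℝ) (i : Fin g) :
    (perR Z x i).re = x (Sum.inl i) + (reM Z *ᵥ (fun k => x (Sum.inr k))) i := by
  simp [perR, mulVec, dotProduct]

theorem perR_im (x : Fin g ⊕ Fin g → ℝ) (i : Fin g) :
    (perR Z x i).im = (imM Z *ᵥ (fun k => x (Sum.inr k))) i := by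
  simp [perR, mulVec, dotProduct]

theorem perR_JR (hY : IsUnit (imM Z).det) (x : Fin g ⊕ Fin g → ℝ) :
    perR Z (JR Z *ᵥ x) = Complex.I • perR Z x := by
  set a : Fin g → ℝ := fun i => x (Sum.inl i) with ha
  set b : Fin g → ℝ := fun i => x (Sum.inr i) with hb
  have hx2 : x = Sum.elim a b := by
    funext i
    rcases i with i | i <;> rfl
  set b' : Fin g → ℝ := (imM Z)⁻¹ *ᵥ (a + reM Z *ᵥ b) with hb'
  have hYb : imM Z *ᵥ b' = a + reM Z *ᵥ b := by
    rw [hb', mulVec_mulVec, mul_nonsing_inv _ hY, one_mulVec]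
  have hJ : JR Z *ᵥ x = Sum.elim (-(reM Z *ᵥ b') - imM Z *ᵥ b) b' := by
    rw [hx2]
    unfold JR
    rw [fromBlocks_mulVec, Sum.elim_comp_inl, Sum.elim_comp_inr]
    congr 1
    · rw [hb', neg_mulVec, sub_mulVec, neg_mulVec, mulVec_add, mulVec_add, mulVec_mulVec,
        mulVec_mulVec, mulVec_mulVec, mul_assoc]
      abel
    · rw [hb', mulVec_add, mulVec_mulVec]
  funext i
  apply Complex.ext
  · rw [perR_re, hJ]
    simp only [Sum.elim_inl, Sum.elim_inr, Pi.sub_apply, Pi.neg_apply, Pi.smul_apply, smul_eq_mul,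
      Complex.mul_re, Complex.I_re, Complex.I_im, zero_mul, one_mul, zero_sub, perR_im]
    change -(reM Z *ᵥ b') i - (imM Z *ᵥ b) i + (reM Z *ᵥ b') i = -(imM Z *ᵥ b) i
    ring
  · rw [perR_im, hJ]
    simp only [Sum.elim_inr, Pi.smul_apply, smul_eq_mul, Complex.mul_im, Complex.I_re,
      Complex.I_im, zero_mul, one_mul, zero_add, perR_re]
    change (imM Z *ᵥ b') i = a i + (reM Z *ᵥ b) i
    rw [hYb]
    rfl

theorem perR_rotate (hY : IsUnit (imM Z).det) (θ : ℝ) (x : Fin g ⊕ Fin g → ℝ) :
    perR Z (Real.cos θ • x + Real.sin θ • (JR Z *ᵥ x)) =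
      (Complex.cos θ + Complex.sin θ * Complex.I) • perR Z x := by
  rw [map_add, map_smul, map_smul, perR_JR Z hY]
  funext i
  simp only [Pi.add_apply, Pi.smul_apply, smul_eq_mul, Complex.real_smul, Complex.ofReal_cos,
    Complex.ofReal_sin]
  ring

/-- The derivative of a rotation. -/
theorem act_of_rotate {B κ : Type*} [Fintype B] [DecidableEq B] [Fintype κ] [DecidableEq κ]
    {J : Matrix B B ℝ} {c : (κ → B) → ℝ}
    (h : ∀ (θ : ℝ) (x : κ → B → ℝ),
      evalF c (fun k => Real.cos θ • x k + Real.sin θ • (J *ᵥ x k)) = evalF c x) :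
    act J c = 0 := by
  apply eq_zero_of_evalF
  intro x
  rw [evalF_act]
  have h1 : HasDerivAt (fun θ : ℝ =>
      evalF c (fun k => Real.cos θ • x k + Real.sin θ • (J *ᵥ x k)))
      (∑ I, c I * ∑ k, (∏ l ∈ Finset.univ.erase k, (Real.cos 0 * x l (I l) +
        Real.sin 0 * (J *ᵥ x l) (I l))) • (-Real.sin 0 * x k (I k) +
          Real.cos 0 * (J *ᵥ x k) (I k))) 0 := by
    unfold evalF
    refine HasDerivAt.fun_sum fun I _ => ?_
    refine HasDerivAt.const_mul _ ?_
    refine HasDerivAt.fun_finsetProd fun k _ => ?_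
    exact ((Real.hasDerivAt_cos 0).mul_const _).add ((Real.hasDerivAt_sin 0).mul_const _)
  have h2 : HasDerivAt (fun θ : ℝ =>
      evalF c (fun k => Real.cos θ • x k + Real.sin θ • (J *ᵥ x k))) 0 0 := by
    have h3 : (fun θ : ℝ => evalF c (fun k => Real.cos θ • x k + Real.sin θ • (J *ᵥ x k))) =
        fun _ => evalF c x := by
      funext θ
      exact h θ x
    rw [h3]
    exact hasDerivAt_const _ _
  have h3 := h1.unique h2
  rw [← h3]
  unfold evalF
  rw [Finset.sum_comm]
  refine Finset.sum_congr rfl fun I _ => ?_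
  rw [Finset.mul_sum]
  refine Finset.sum_congr rfl fun k _ => ?_
  rw [← Finset.mul_prod_erase _ _ (Finset.mem_univ k), Function.update_self]
  have h2 : ∏ l ∈ Finset.univ.erase k, Function.update x k (J *ᵥ (x k)) l (I l) =
      ∏ l ∈ Finset.univ.erase k, x l (I l) := by
    refine Finset.prod_congr rfl fun l hl => ?_
    rw [Function.update_of_ne (Finset.ne_of_mem_erase hl)]
  rw [h2]
  simp only [Real.cos_zero, Real.sin_zero, one_mul, zero_mul, add_zero, neg_zero, zero_add,
    smul_eq_mul]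
  ring

/-- The coefficients of a form on a power, with values in given factors. -/
def coe {n : ℕ} {κ : Type*} (f : (Fin n → Fin g ⊕ Fin g → ℚ) [⋀^κ]→ₗ[ℚ] ℚ) (t : κ → Fin n) :
    (κ → Fin g ⊕ Fin g) → ℚ :=
  fun I => f (fun k => Pi.single (t k) (Pi.single (I k) 1))

/-- The coefficients of Hodge classes. -/
theorem isH_coe (hY : IsUnit (imM Z).det) {n : ℕ} {κ : Type*} [Fintype κ] [DecidableEq κ]
    {f : (Fin n → Fin g ⊕ Fin g → ℚ) [⋀^κ]→ₗ[ℚ] ℚ} (hf : IsHodge (perPow Z n) f)
    (t : κ → Fin n) : IsH (DZ Z) (coe f t) := by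
  obtain ⟨ψ, hψ1, hψ2⟩ := hf
  -- the real form
  have h1 : ∀ x : κ → Fin g ⊕ Fin g → ℝ,
      ψ (fun k => Pi.single (t k) (perR Z (x k))) = evalF (cst ℝ (coe f t)) x := by
    let ψ' : MultilinearMap ℝ (fun _ : κ => Fin g ⊕ Fin g → ℝ) ℝ :=
      ψ.compLinearMap (fun k => (LinearMap.single ℝ (fun _ : Fin n => Fin g → ℂ) (t k)).comp
        (perR Z))
    have h2 : ψ' = evalM (cst ℝ (coe f t)) := by
      refine Module.Basis.ext_multilinear (fun _ => Pi.basisFun ℝ (Fin g ⊕ Fin g)) fun I => ?_
      simp only [Pi.basisFun_apply]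
      rw [evalM_apply, evalF_single]
      change ψ (fun k => Pi.single (t k) (perR Z (Pi.single (I k) 1))) = ((f _ : ℚ) : ℝ)
      rw [← hψ1]
      congr 1
      funext k
      funext j i
      rw [perPow_apply]
      by_cases hj : j = t k
      · subst hj
        rw [Pi.single_eq_same, Pi.single_eq_same]
        simp only [perR, LinearMap.coe_mk, AddHom.coe_mk]
        congr 1
        · by_cases hI : I k = Sum.inl i
          · rw [hI, Pi.single_eq_same, Pi.single_eq_same]
            simp
          · rw [Pi.single_eq_of_ne (Ne.symm hI), Pi.single_eq_of_ne (Ne.symm hI)]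
            simp
        · refine Finset.sum_congr rfl fun l _ => ?_
          congr 1
          by_cases hI : I k = Sum.inr l
          · rw [hI, Pi.single_eq_same, Pi.single_eq_same]
            simp
          · rw [Pi.single_eq_of_ne (Ne.symm hI), Pi.single_eq_of_ne (Ne.symm hI)]
            simp
      · rw [Pi.single_eq_of_ne hj, Pi.single_eq_of_ne hj]
        simp
    intro x
    exact congrArg (fun F => F x) h2
  have h3 : act (JR Z) (cst ℝ (coe f t)) = 0 := by
    apply act_of_rotate
    intro θ x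
    rw [← h1, ← h1]
    refine Eq.trans ?_ (hψ2 (Complex.cos θ + Complex.sin θ * Complex.I) (by
      rw [← Complex.exp_mul_I, Complex.norm_exp_ofReal_mul_I]) _)
    congr 1
    funext k
    rw [perR_rotate Z hY, Pi.single_smul]
  unfold IsH DZ
  rw [act_smul_left]
  have h4 : act ((JR Z).map (fun x : ℝ => (x : ℂ))) (cst ℂ (coe f t)) = 0 := by
    funext I
    have h5 := congrFun h3 I
    simp only [act, cst, Matrix.map_apply, Pi.zero_apply] at h5 ⊢
    exact_mod_cast h5
  rw [h4, smul_zero]

end Pool.Agent.W437.HC
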