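import Mathlib
import Pool.Agent.W437.HC.Period

/-!
# Polynomials in the entries of the period matrix
-/

set_option linter.unusedSectionVars false

namespace Pool.Agent.W437.HC

open Matrix

section

variable {B κ K : Type*} [Fintype B] [DecidableEq B] [Fintype κ] [DecidableEq κ] [Field K]

/-- A form killed by `D` vanishes on eigenvectors of `D` with nonzero sum of eigenvalues. -/
theorem evalF_eig {D : Matrix B B K} {c : (κ → B) → K} (h : act D c = 0) (s : κ → K)
    (x : κ → B → K) (hx : ∀ k, D *ᵥ x k = s k • x k) (hs : ∑ k, s k ≠ 0) : evalF c x = 0 := by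
  have h1 := evalF_act D c x
  rw [h, evalF_zero] at h1
  have h2 : ∀ k, evalF c (Function.update x k (D *ᵥ (x k))) = s k * evalF c x := by
    intro k
    rw [hx, evalF_update_smul, Function.update_eq_self]
  rw [Finset.sum_congr rfl (fun k _ => h2 k), ← Finset.sum_mul] at h1
  exact (mul_eq_zero.1 h1.symm).resolve_left hs

/-- It is enough to test the values of a form on a spanning set. -/
theorem evalF_span (c : (κ → B) → K) (S : Set (B → K)) (hS : Submodule.span K S = ⊤)
    (h : ∀ x : κ → B → K, (∀ k, x k ∈ S) → evalF c x = 0) (x : κ → B → K) : evalF c x = 0 := by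
  have key : ∀ (A : Finset κ) (x : κ → B → K), (∀ k, k ∉ A → x k ∈ S) → evalF c x = 0 := by
    intro A
    induction A using Finset.induction_on with
    | empty => exact fun x hx => h x fun k => hx k (Finset.notMem_empty k)
    | insert k A hk ih =>
      intro x hx
      have h1 : ∀ u ∈ Submodule.span K S, evalF c (Function.update x k u) = 0 := by
        intro u hu
        induction hu using Submodule.span_induction with
        | mem u hu =>
          refine ih _ fun l hl => ?_
          by_cases hlk : l = k
          · subst hlk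
            rwa [Function.update_self]
          · rw [Function.update_of_ne hlk]
            exact hx l (by simp [hlk, hl])
        | zero =>
          have h2 := evalF_update_smul c x k 0 0
          rwa [zero_smul, zero_mul] at h2
        | add u v _ _ hu hv => rw [evalF_update_add, hu, hv, add_zero]
        | smul a u _ hu => rw [evalF_update_smul, hu, mul_zero]
      have h2 := h1 (x k) (by rw [hS]; trivial)
      rwa [Function.update_eq_self] at h2
  exact key Finset.univ x fun k hk => absurd (Finset.mem_univ k) hk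

end

variable {g : ℕ}

/-- The indices of the entries on and above the diagonal. -/
abbrev SI (g : ℕ) : Type := {x : Fin g × Fin g // x.1 ≤ x.2}

/-- The index on or above the diagonal. -/
def sidx (i j : Fin g) : SI g := ⟨(min i j, max i j), min_le_max⟩

theorem entry_sidx {K : Type*} {X : Matrix (Fin g) (Fin g) K} (hX : Xᵀ = X) (i j : Fin g) :
    X (sidx i j).1.1 (sidx i j).1.2 = X i j := by
  change X (min i j) (max i j) = X i j
  rcases le_total i j with h | h
  · rw [min_eq_left h, max_eq_right h]
  · rw [min_eq_right h, max_eq_left h]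
    exact congrFun (congrFun hX i) j

open MvPolynomial in
/-- The entries of a vector of the Lagrangian subspace of a generic symmetric matrix. -/
noncomputable def vecP (b : Fin g → ℚ) : Fin g ⊕ Fin g → MvPolynomial (SI g) ℚ :=
  Sum.elim (fun r => -∑ s, MvPolynomial.X (sidx r s) * C (b s)) (fun r => C (b r))

open MvPolynomial in
theorem aeval_vecP {K : Type*} [Field K] [CharZero K] {M : Matrix (Fin g) (Fin g) K} (hM : Mᵀ = M)
    (b : Fin g → ℚ) (i : Fin g ⊕ Fin g) :
    aeval (fun s : SI g => M s.1.1 s.1.2) (vecP b i) = vecL M (fun r => (b r : K)) i := by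
  rcases i with i | i
  · simp only [vecP, vecL, Sum.elim_inl, map_neg, map_sum, map_mul, aeval_X, entry_sidx hM,
      Pi.neg_apply, mulVec, dotProduct]
    congr 1
    refine Finset.sum_congr rfl fun s _ => ?_
    rw [algHom_C]
    simp
  · simp only [vecP, vecL, Sum.elim_inr]
    rw [algHom_C]
    simp

open MvPolynomial in
theorem totalDegree_vecP (b : Fin g → ℚ) (i : Fin g ⊕ Fin g) : (vecP b i).totalDegree ≤ 1 := by
  rcases i with i | i
  · simp only [vecP, Sum.elim_inl, totalDegree_neg]
    refine totalDegree_finsetSum_le fun s _ => ?_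
    refine (totalDegree_mul _ _).trans ?_
    rw [totalDegree_X, totalDegree_C]
  · simp only [vecP, Sum.elim_inr, totalDegree_C]
    exact Nat.zero_le _

open MvPolynomial in
/-- The value of a form at vectors from the Lagrangian subspace of a generic symmetric matrix
outside of the set `A` of slots. -/
noncomputable def valP {κ : Type*} [Fintype κ] [DecidableEq κ]
    (c : (κ → Fin g ⊕ Fin g) → ℚ) (A : Finset κ) (b : κ → Fin g → ℚ)
    (y : κ → Fin g ⊕ Fin g → ℚ) : MvPolynomial (SI g) ℚ :=
  ∑ I, C (c I) * ∏ l, if l ∈ A then C (y l (I l)) else vecP (b l) (I l)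

open MvPolynomial in
theorem totalDegree_valP {κ : Type*} [Fintype κ] [DecidableEq κ]
    (c : (κ → Fin g ⊕ Fin g) → ℚ) (A : Finset κ) (b : κ → Fin g → ℚ)
    (y : κ → Fin g ⊕ Fin g → ℚ) : (valP c A b y).totalDegree ≤ Aᶜ.card := by
  unfold valP
  refine totalDegree_finsetSum_le fun I _ => ?_
  refine (totalDegree_mul _ _).trans ?_
  rw [totalDegree_C, zero_add]
  refine (totalDegree_finsetProd _ _).trans ?_
  rw [Finset.card_eq_sum_ones, ← Finset.sum_filter_add_sum_filter_not Finset.univ (fun l => l ∈ A)]
  have h1 : ∑ l ∈ Finset.univ.filter (fun l => l ∈ A),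
      (if l ∈ A then C (y l (I l)) else vecP (b l) (I l)).totalDegree = 0 := by
    refine Finset.sum_eq_zero fun l hl => ?_
    rw [if_pos (Finset.mem_filter.1 hl).2, totalDegree_C]
  rw [h1, zero_add]
  have h2 : Finset.univ.filter (fun l => l ∉ A) = Aᶜ := by
    ext l
    simp
  rw [h2]
  refine Finset.sum_le_sum fun l hl => ?_
  rw [if_neg (Finset.mem_compl.1 hl)]
  exact totalDegree_vecP _ _

open MvPolynomial in
theorem aeval_valP {κ : Type*} [Fintype κ] [DecidableEq κ] {K : Type*} [Field K] [CharZero K]
    {M : Matrix (Fin g) (Fin g) K} (hM : Mᵀ = M)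
    (c : (κ → Fin g ⊕ Fin g) → ℚ) (A : Finset κ) (b : κ → Fin g → ℚ)
    (y : κ → Fin g ⊕ Fin g → ℚ) :
    aeval (fun s : SI g => M s.1.1 s.1.2) (valP c A b y) =
      evalF (cst K c) (fun l => if l ∈ A then (fun i => (y l i : K)) else
        vecL M (fun r => (b l r : K))) := by
  simp only [valP, evalF, map_sum, map_mul, map_prod]
  refine Finset.sum_congr rfl fun I _ => ?_
  rw [algHom_C]
  refine congrArg₂ (fun x y : K => x * y) (by simp [cst]) ?_
  refine Finset.prod_congr rfl fun l _ => ?_
  by_cases hl : l ∈ A
  · rw [if_pos hl, if_pos hl, algHom_C]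
    simp
  · rw [if_neg hl, if_neg hl, aeval_vecP hM]

variable {Z : Matrix (Fin g) (Fin g) ℂ}

/-- A Hodge form in `2 m` variables vanishes if more than `m` of its arguments belong to the kernel
of the period map. -/
theorem isH_vanish (hY : IsUnit (imM Z).det) {κ : Type*} [Fintype κ] [DecidableEq κ]
    {c : (κ → Fin g ⊕ Fin g) → ℚ} (hc : IsH (DZ Z) c) (A : Finset κ)
    (hA : 2 * A.card < Fintype.card κ)
    (x : κ → Fin g ⊕ Fin g → ℂ) (hx : ∀ k, k ∉ A → DZ Z *ᵥ x k = -x k) :
    evalF (cst ℂ c) x = 0 := by
  have key : ∀ (A' : Finset κ) (x : κ → Fin g ⊕ Fin g → ℂ), A' ⊆ A →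
      (∀ k, k ∉ A → DZ Z *ᵥ x k = -x k) →
      (∀ k, k ∈ A → k ∉ A' → DZ Z *ᵥ x k = -x k ∨ DZ Z *ᵥ x k = x k) →
      evalF (cst ℂ c) x = 0 := by
    intro A'
    induction A' using Finset.induction_on with
    | empty =>
      intro x _ h1 h2
      classical
      have h3 : ∀ k, ∃ s : ℤ, (s = -1 ∨ s = 1) ∧ DZ Z *ᵥ x k = (s : ℂ) • x k ∧
          (k ∉ A → s = -1) := by
        intro k
        by_cases hk : k ∈ A
        · rcases h2 k hk (Finset.notMem_empty k) with h | h
          · exact ⟨-1, Or.inl rfl, by rw [h]; simp, fun h => absurd hk h⟩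
          · exact ⟨1, Or.inr rfl, by rw [h]; simp, fun h => absurd hk h⟩
        · exact ⟨-1, Or.inl rfl, by rw [h1 k hk]; simp, fun _ => rfl⟩
      choose s hs1 hs2 hs3 using h3
      refine evalF_eig hc (fun k => (s k : ℂ)) x hs2 ?_
      have h4 : ∑ k, s k < 0 := by
        rw [← Finset.sum_add_sum_compl A]
        have h5 : ∑ k ∈ A, s k ≤ A.card := by
          have : ∑ k ∈ A, s k ≤ ∑ k ∈ A, (1 : ℤ) := by
            refine Finset.sum_le_sum fun k _ => ?_
            rcases hs1 k with h | h <;> omega
          simpa using this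
        have h6 : ∑ k ∈ Aᶜ, s k = -(Aᶜ.card : ℤ) := by
          rw [Finset.sum_congr rfl (fun k hk => hs3 k (Finset.mem_compl.1 hk))]
          simp
        have h7 : A.card + Aᶜ.card = Fintype.card κ := Finset.card_add_card_compl A
        omega
      have h5 : ((∑ k, s k : ℤ) : ℂ) ≠ 0 := by exact_mod_cast h4.ne
      rw [Int.cast_sum] at h5
      exact h5
    | insert k A' hk ih =>
      intro x hsub h1 h2
      obtain ⟨u, v, huv, hu, hv⟩ := exists_eig hY (x k)
      have hkA : k ∈ A := hsub (Finset.mem_insert_self _ _)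
      have h3 : evalF (cst ℂ c) x = evalF (cst ℂ c) (Function.update x k u) +
          evalF (cst ℂ c) (Function.update x k v) := by
        rw [← evalF_update_add, ← huv, Function.update_eq_self]
      have h4 : ∀ w, (DZ Z *ᵥ w = -w ∨ DZ Z *ᵥ w = w) →
          evalF (cst ℂ c) (Function.update x k w) = 0 := by
        intro w hw
        refine ih _ ((Finset.subset_insert _ _).trans hsub) ?_ ?_
        · intro l hl
          have hlk : l ≠ k := fun h => hl (h ▸ hkA)
          rw [Function.update_of_ne hlk]
          exact h1 l hl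
        · intro l hl hl'
          by_cases hlk : l = k
          · subst hlk
            rwa [Function.update_self]
          · rw [Function.update_of_ne hlk]
            exact h2 l hl (by simp [hlk, hl'])
      rw [h3, h4 u (Or.inl hu), h4 v (Or.inr hv), add_zero]
  exact key A x (Finset.Subset.refl _) hx (fun k hk hk' => absurd hk hk')

/-- If the entries of the period matrix satisfy no polynomial relation of degree less than or equal
to `d` then the Hodge forms vanish on `d` arguments from rational Lagrangian subspaces. -/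
theorem vanish_rat (hZ : Zᵀ = Z) (hY : IsUnit (imM Z).det) {d : ℕ}
    (hrel : ∀ p : MvPolynomial (SI g) ℚ, p.totalDegree ≤ d →
      MvPolynomial.aeval (fun s : SI g => Z s.1.1 s.1.2) p = 0 → p = 0)
    {κ : Type*} [Fintype κ] [DecidableEq κ]
    {c : (κ → Fin g ⊕ Fin g) → ℚ} (hc : IsH (DZ Z) c) (A : Finset κ)
    (hA : 2 * A.card < Fintype.card κ) (hAd : Aᶜ.card ≤ d) (M : Matrix (Fin g) (Fin g) ℚ)
    (hM : Mᵀ = M) (x : κ → Fin g ⊕ Fin g → ℚ) (hx : ∀ k, k ∉ A → ∃ b, x k = vecL M b) :
    evalF c x = 0 := by
  set b : κ → Fin g → ℚ := fun k r => x k (Sum.inr r) with hb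
  have hx' : ∀ k, k ∉ A → x k = vecL M (b k) := by
    intro k hk
    obtain ⟨b', hb'⟩ := hx k hk
    have : b k = b' := by
      funext r
      rw [hb]
      simp only
      rw [hb']
      rfl
    rw [this]
    exact hb'
  have h1 : valP c A b x = 0 := by
    refine hrel _ ((totalDegree_valP c A b x).trans hAd) ?_
    rw [aeval_valP hZ]
    refine isH_vanish hY hc A hA _ fun k hk => ?_
    rw [if_neg hk]
    exact DZ_vecL hY _
  have h2 := aeval_valP (K := ℚ) hM c A b x
  rw [h1, map_zero] at h2
  have h3 : cst ℚ c = c := by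
    funext I
    simp [cst]
  rw [h3] at h2
  rw [h2]
  congr 1
  funext k
  by_cases hk : k ∈ A
  · rw [if_pos hk]
    simp
  · rw [if_neg hk, hx' k hk]
    simp

end Pool.Agent.W437.HC
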