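import Mathlib
import Pool.Agent.W437.HC.Cubic

/-!
# Forms vanishing on all rational Lagrangian subspaces
-/

set_option linter.unusedSectionVars false

namespace Pool.Agent.W437.HC

open Matrix

variable {g : ℕ}

/-- The form `c` vanishes if more than one half of the arguments belong to one of the rational
Lagrangian subspaces `vecL M`. -/
def Van {κ : Type*} [Fintype κ] [DecidableEq κ] (c : (κ → Fin g ⊕ Fin g) → ℚ) : Prop :=
  ∀ M : Matrix (Fin g) (Fin g) ℚ, Mᵀ = M → ∀ A : Finset κ, 2 * A.card < Fintype.card κ →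
    ∀ x : κ → Fin g ⊕ Fin g → ℚ, (∀ k, k ∉ A → ∃ b, x k = vecL M b) → evalF c x = 0

/-- The map `(a, b) ↦ vecL M (S (a + M b))`. -/
def NX (M S : Matrix (Fin g) (Fin g) ℚ) : Matrix (Fin g ⊕ Fin g) (Fin g ⊕ Fin g) ℚ :=
  fromBlocks (-(M * S)) (-(M * S * M)) S (S * M)

/-- The map `(a, b) ↦ (a + 2 M b, -b)`. -/
def QX (M : Matrix (Fin g) (Fin g) ℚ) : Matrix (Fin g ⊕ Fin g) (Fin g ⊕ Fin g) ℚ :=
  fromBlocks 1 ((2 : ℚ) • M) 0 (-1)

theorem NX_add (M S S' : Matrix (Fin g) (Fin g) ℚ) : NX M (S + S') = NX M S + NX M S' := by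
  unfold NX
  rw [fromBlocks_add]
  congr 1 <;> noncomm_ring

theorem NX_smul (M S : Matrix (Fin g) (Fin g) ℚ) (a : ℚ) : NX M (a • S) = a • NX M S := by
  unfold NX
  rw [fromBlocks_smul]
  simp only [mul_smul_comm, smul_mul_assoc, smul_neg]

theorem NX_vecL (M S N : Matrix (Fin g) (Fin g) ℚ) (b : Fin g → ℚ) :
    NX M S *ᵥ vecL N b = vecL M ((S * (M - N)) *ᵥ b) := by
  unfold NX vecL
  rw [fromBlocks_mulVec, Sum.elim_comp_inl, Sum.elim_comp_inr]
  have h1 : -(M * S) *ᵥ -(N *ᵥ b) + -(M * S * M) *ᵥ b = -(M *ᵥ ((S * (M - N)) *ᵥ b)) := by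
    rw [mulVec_neg, neg_mulVec, neg_neg, neg_mulVec, mulVec_mulVec, mulVec_mulVec, mul_sub,
      mul_sub, sub_mulVec, ← mul_assoc, ← mul_assoc]
    abel
  have h2 : S *ᵥ -(N *ᵥ b) + (S * M) *ᵥ b = (S * (M - N)) *ᵥ b := by
    rw [mulVec_neg, mulVec_mulVec, mul_sub, sub_mulVec]
    abel
  rw [h1, h2]

theorem QX_vecL (M N : Matrix (Fin g) (Fin g) ℚ) (b : Fin g → ℚ) :
    QX M *ᵥ vecL N b = vecL N b - (2 : ℚ) • vecL M b := by
  unfold QX vecL
  rw [fromBlocks_mulVec, Sum.elim_comp_inl, Sum.elim_comp_inr]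
  funext i
  rcases i with i | i
  · simp only [Sum.elim_inl, Pi.sub_apply, Pi.smul_apply, Pi.add_apply, one_mulVec, smul_mulVec,
      Pi.neg_apply, smul_eq_mul]
    ring
  · simp only [Sum.elim_inr, Pi.sub_apply, Pi.smul_apply, Pi.add_apply, one_mulVec, zero_mulVec,
      neg_mulVec, Pi.zero_apply, Pi.neg_apply, smul_eq_mul]
    ring

theorem vecL_zero {K : Type*} [Field K] (M : Matrix (Fin g) (Fin g) K) : vecL M 0 = 0 := by
  unfold vecL
  rw [mulVec_zero, neg_zero]
  funext i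
  rcases i with i | i <;> rfl

theorem P_vecL (M S : Matrix (Fin g) (Fin g) ℚ) (b : Fin g → ℚ) :
    (QX M - (2 : ℚ) • NX M S) *ᵥ vecL M b = -vecL M b := by
  rw [sub_mulVec, smul_mulVec, QX_vecL, NX_vecL, sub_self, mul_zero, zero_mulVec, vecL_zero,
    smul_zero, sub_zero, two_smul]
  abel

theorem P_vecL' {M S T : Matrix (Fin g) (Fin g) ℚ} (h : S * T = 1) (b : Fin g → ℚ) :
    (QX M - (2 : ℚ) • NX M S) *ᵥ vecL (M + T) b = vecL (M + T) b := by
  rw [sub_mulVec, smul_mulVec, QX_vecL, NX_vecL]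
  have h1 : S * (M - (M + T)) = -1 := by
    rw [sub_add_cancel_left, mul_neg, h]
  have h2 : vecL M (-b) = -vecL M b := by
    unfold vecL
    rw [mulVec_neg, neg_neg]
    funext i
    rcases i with i | i <;> simp
  rw [h1, neg_mulVec, one_mulVec, h2, smul_neg]
  abel

/-- The form is killed by the operators with eigenvalues `-1` and `1` on two Lagrangian
subspaces. -/
theorem act_P {κ : Type*} [Fintype κ] [DecidableEq κ] {m : ℕ} (hκ : Fintype.card κ = 2 * m)
    {c : (κ → Fin g ⊕ Fin g) → ℚ} (hc : Van c) {M S T : Matrix (Fin g) (Fin g) ℚ} (hM : Mᵀ = M)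
    (hT : Tᵀ = T) (h : S * T = 1) : act (QX M - (2 : ℚ) • NX M S) c = 0 := by
  classical
  set P := QX M - (2 : ℚ) • NX M S with hP
  apply eq_zero_of_evalF
  have hspan : Submodule.span ℚ {x : Fin g ⊕ Fin g → ℚ | (∃ b, x = vecL M b) ∨
      ∃ b, x = vecL (M + T) b} = ⊤ := by
    rw [eq_top_iff]
    intro y _
    have hT' : IsUnit (M + T - M).det := by
      rw [add_sub_cancel_left]
      exact isUnit_det_of_left_inverse h
    obtain ⟨b, b', hb⟩ := exists_decomp M (M + T) hT' y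
    rw [hb]
    exact Submodule.add_mem _ (Submodule.subset_span (Or.inl ⟨b, rfl⟩))
      (Submodule.subset_span (Or.inr ⟨b', rfl⟩))
  refine evalF_span _ _ hspan fun x hx => ?_
  set S1 : Finset κ := Finset.univ.filter (fun k => ∃ b, x k = vecL M b) with hS1
  have hS1c : ∀ k, k ∉ S1 → ∃ b, x k = vecL (M + T) b := by
    intro k hk
    exact (hx k).resolve_left fun h => hk (Finset.mem_filter.2 ⟨Finset.mem_univ _, h⟩)
  have h1 : evalF (act P c) x = (∑ k, if k ∈ S1 then (-1 : ℚ) else 1) * evalF c x := by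
    rw [evalF_act, Finset.sum_mul]
    refine Finset.sum_congr rfl fun k _ => ?_
    have h2 : P *ᵥ x k = (if k ∈ S1 then (-1 : ℚ) else 1) • x k := by
      by_cases hk : k ∈ S1
      · obtain ⟨b, hb⟩ := (Finset.mem_filter.1 hk).2
        rw [if_pos hk, hb, neg_one_smul]
        exact P_vecL M S b
      · obtain ⟨b, hb⟩ := hS1c k hk
        rw [if_neg hk, hb, one_smul]
        exact P_vecL' h b
    rw [h2, evalF_update_smul, Function.update_eq_self]
  have hcard : S1.card + S1ᶜ.card = Fintype.card κ := Finset.card_add_card_compl S1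
  rw [h1]
  rcases lt_trichotomy S1.card m with h2 | h2 | h2
  · have h3 : evalF c x = 0 := hc (M + T) (by rw [transpose_add, hM, hT]) S1 (by omega) x hS1c
    rw [h3, mul_zero]
  · have h3 : (∑ k, if k ∈ S1 then (-1 : ℚ) else 1) = 0 := by
      rw [← Finset.sum_add_sum_compl S1, Finset.sum_congr rfl (fun k hk => if_pos hk),
        Finset.sum_congr (s₁ := S1ᶜ) rfl (fun k hk => if_neg (Finset.mem_compl.1 hk))]
      simp only [Finset.sum_const, nsmul_eq_mul, mul_neg, mul_one]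
      have h4 : S1ᶜ.card = S1.card := by omega
      rw [h4]
      ring
    rw [h3, zero_mul]
  · have h3 : evalF c x = 0 := by
      refine hc M hM S1ᶜ (by omega) x fun k hk => ?_
      rw [Finset.notMem_compl] at hk
      exact (Finset.mem_filter.1 hk).2
    rw [h3, mul_zero]

theorem act_NX {κ : Type*} [Fintype κ] [DecidableEq κ] {m : ℕ} (hκ : Fintype.card κ = 2 * m)
    {c : (κ → Fin g ⊕ Fin g) → ℚ} (hc : Van c) {M S T : Matrix (Fin g) (Fin g) ℚ} (hM : Mᵀ = M)
    (hT : Tᵀ = T) (h : S * T = 1) : act (NX M S) c = 0 := by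
  have h1 := act_P hκ hc hM hT h
  have h2 := act_P (S := (2 : ℚ) • S) (T := (2⁻¹ : ℚ) • T) hκ hc hM
    (by rw [transpose_smul, hT]) (by
      rw [smul_mul_smul_comm, h]
      norm_num)
  rw [NX_smul] at h2
  rw [act_sub_left, act_smul_left] at h1 h2
  rw [act_smul_left] at h2
  have h3 := congrArg₂ (fun x y : (κ → Fin g ⊕ Fin g) → ℚ => x - y) h1 h2
  simp only [sub_zero] at h3
  funext I
  have h4 := congrFun h3 I
  simp only [Pi.sub_apply, Pi.smul_apply, smul_eq_mul, Pi.zero_apply] at h4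
  rw [Pi.zero_apply]
  linarith

theorem act_NX_rank (κ : Type*) [Fintype κ] [DecidableEq κ] {m : ℕ} (hκ : Fintype.card κ = 2 * m)
    {c : (κ → Fin g ⊕ Fin g) → ℚ} (hc : Van c) {M : Matrix (Fin g) (Fin g) ℚ} (hM : Mᵀ = M)
    (b : Fin g → ℚ) : act (NX M (vecMulVec b b)) c = 0 := by
  have h1 : act (NX M 1) c = 0 := act_NX (T := 1) hκ hc hM transpose_one (mul_one 1)
  have hs : (1 + b ⬝ᵥ b) ≠ 0 := by
    have : 0 ≤ b ⬝ᵥ b := Finset.sum_nonneg fun i _ => mul_self_nonneg (b i)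
    positivity
  have h2 : act (NX M (1 + vecMulVec b b)) c = 0 := by
    refine act_NX (T := 1 - (1 + b ⬝ᵥ b)⁻¹ • vecMulVec b b) hκ hc hM ?_ ?_
    · rw [transpose_sub, transpose_one, transpose_smul, transpose_vecMulVec]
    · have hV : vecMulVec b b * vecMulVec b b = (b ⬝ᵥ b) • vecMulVec b b := by
        rw [vecMulVec_mul_vecMulVec, vecMulVec_smul]
      have h3 : (1 + vecMulVec b b) * (1 - (1 + b ⬝ᵥ b)⁻¹ • vecMulVec b b) =
          1 + (1 - (1 + b ⬝ᵥ b)⁻¹ - (1 + b ⬝ᵥ b)⁻¹ * (b ⬝ᵥ b)) • vecMulVec b b := by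
        rw [mul_sub, mul_one, mul_smul_comm, add_mul, one_mul, hV, sub_smul, sub_smul, one_smul,
          smul_add, smul_smul]
        abel
      rw [h3]
      have h4 : 1 - (1 + b ⬝ᵥ b)⁻¹ - (1 + b ⬝ᵥ b)⁻¹ * (b ⬝ᵥ b) = 0 := by
        field_simp
        ring
      rw [h4, zero_smul, add_zero]
  rw [NX_add, act_add_left, h1, zero_add] at h2
  exact h2

theorem NX_eq {M : Matrix (Fin g) (Fin g) ℚ} (hM : Mᵀ = M) (b : Fin g → ℚ) :
    vecMulVec (vecL M b) (vecL M b) * Om g ℚ = -NX M (vecMulVec b b) := by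
  rw [vecMulVec_mul]
  have h1 : vecL M b ᵥ* Om g ℚ = Sum.elim (-b) (-(M *ᵥ b)) := by
    unfold vecL Om
    rw [vecMul_fromBlocks]
    rw [Sum.elim_comp_inl, Sum.elim_comp_inr]
    simp [vecMul_neg]
  rw [h1]
  have hb : ∀ j, (b ᵥ* M) j = (M *ᵥ b) j := by
    intro j
    rw [← mulVec_transpose, hM]
  ext i j
  rw [Matrix.neg_apply]
  rcases i with i | i <;> rcases j with j | j
  · simp only [vecMulVec_apply, vecL, NX, Sum.elim_inl, fromBlocks_apply₁₁, Matrix.neg_apply,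
      mul_vecMulVec, Pi.neg_apply]
    ring
  · simp only [vecMulVec_apply, vecL, NX, Sum.elim_inl, Sum.elim_inr, fromBlocks_apply₁₂,
      Matrix.neg_apply, mul_vecMulVec, vecMulVec_mul, Pi.neg_apply, hb]
    ring
  · simp only [vecMulVec_apply, vecL, NX, Sum.elim_inl, Sum.elim_inr, fromBlocks_apply₂₁,
      Pi.neg_apply]
    ring
  · simp only [vecMulVec_apply, vecL, NX, Sum.elim_inr, fromBlocks_apply₂₂,
      vecMulVec_mul, Pi.neg_apply, hb]
    ring

theorem exists_symm {b : Fin g → ℚ} (hb : b ≠ 0) (a : Fin g → ℚ) :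
    ∃ M : Matrix (Fin g) (Fin g) ℚ, Mᵀ = M ∧ M *ᵥ b = a := by
  have hs : b ⬝ᵥ b ≠ 0 := by
    rw [Ne, dotProduct_self_eq_zero]
    exact hb
  set w : Fin g → ℚ := (b ⬝ᵥ b)⁻¹ • b with hw
  have hwb : w ⬝ᵥ b = 1 := by
    rw [hw, smul_dotProduct, smul_eq_mul, inv_mul_cancel₀ hs]
  refine ⟨vecMulVec a w + vecMulVec w a - (a ⬝ᵥ b) • vecMulVec w w, ?_, ?_⟩
  · rw [transpose_sub, transpose_add, transpose_smul, transpose_vecMulVec, transpose_vecMulVec,
      transpose_vecMulVec]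
    abel
  · rw [sub_mulVec, add_mulVec, smul_mulVec]
    simp only [vecMulVec_mulVec, hwb]
    funext i
    simp

/-- A form vanishing on the rational Lagrangian subspaces is killed by the symplectic Lie
algebra. -/
theorem Van.act_eq_zero {κ : Type*} [Fintype κ] [DecidableEq κ] {m : ℕ}
    (hκ : Fintype.card κ = 2 * m) {c : (κ → Fin g ⊕ Fin g) → ℚ} (hc : Van c)
    (x : Fin g ⊕ Fin g → ℚ) : act (vecMulVec x x * Om g ℚ) c = 0 := by
  have h1 : ∀ (a b : Fin g → ℚ), b ≠ 0 →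
      act (vecMulVec (Sum.elim a b) (Sum.elim a b) * Om g ℚ) c = 0 := by
    intro a b hb
    obtain ⟨M, hM, hMb⟩ := exists_symm hb (-a)
    have h2 : Sum.elim a b = vecL M b := by
      unfold vecL
      rw [hMb, neg_neg]
    rw [h2, NX_eq hM, act_neg_left, act_NX_rank κ hκ hc hM, neg_zero]
  set a : Fin g → ℚ := fun i => x (Sum.inl i) with ha
  set b : Fin g → ℚ := fun i => x (Sum.inr i) with hb
  have hx : x = Sum.elim a b := by
    funext i
    rcases i with i | i <;> rfl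
  rw [hx]
  by_cases hb0 : b = 0
  · by_cases hg : Nonempty (Fin g)
    · obtain ⟨i0⟩ := hg
      set e : Fin g → ℚ := Pi.single i0 1 with he
      have he0 : e ≠ 0 := by
        intro h
        have := congrFun h i0
        rw [he] at this
        simp at this
      have h3 := h1 a e he0
      have h4 := h1 (-a) e he0
      have h5 := h1 0 e he0
      have h6 : vecMulVec (Sum.elim a b) (Sum.elim a b) * Om g ℚ =
          (2⁻¹ : ℚ) • (vecMulVec (Sum.elim a e) (Sum.elim a e) * Om g ℚ) +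
            (2⁻¹ : ℚ) • (vecMulVec (Sum.elim (-a) e) (Sum.elim (-a) e) * Om g ℚ) -
            vecMulVec (Sum.elim 0 e) (Sum.elim 0 e) * Om g ℚ := by
        rw [← smul_mul_assoc, ← smul_mul_assoc, ← add_mul, ← sub_mul, hb0]
        congr 1
        ext i j
        rcases i with i | i <;> rcases j with j | j <;> simp [vecMulVec_apply] <;> ring
      rw [h6, act_sub_left, act_add_left, act_smul_left, act_smul_left, h3, h4, h5]
      simp
    · have h2 : vecMulVec (Sum.elim a b) (Sum.elim a b) * Om g ℚ = 0 := by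
        ext i j
        rcases i with i | i <;> exact absurd ⟨i⟩ hg
      rw [h2, act_zero_left]
  · exact h1 a b hb0

end Pool.Agent.W437.HC
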