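import Mathlib
import Pool.Agent.H204R3.SP.FFT
import Pool.Agent.W437.HC.Casimir
import Pool.Agent.W437.HC.Kill

/-!
# The Lie algebra of a period matrix without cubic relations
-/

set_option linter.unusedSectionVars false

namespace Pool.Agent.W437.HC

open Matrix

section

variable {B : Type*} [Fintype B] [DecidableEq B]

/-- A matrix of rank one in the symplectic Lie algebra of `Om`. -/
def rk1 {K : Type*} [Field K] (Om : Matrix B B K) (u : B → K) : Matrix B B K :=
  vecMulVec u u * Om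

theorem rk1_sp {K : Type*} [Field K] {Om : Matrix B B K} (hOm : Omᵀ = -Om) (u : B → K) :
    (rk1 Om u)ᵀ * Om + Om * rk1 Om u = 0 := by
  unfold rk1
  rw [transpose_mul, transpose_vecMulVec, hOm]
  noncomm_ring

theorem rk1_mid {K : Type*} [Field K] (Om X : Matrix B B K) (u : B → K) :
    rk1 Om u * X * rk1 Om u = (u ⬝ᵥ ((Om * X) *ᵥ u)) • rk1 Om u := by
  unfold rk1
  rw [mul_assoc (vecMulVec u u) Om X, ← mul_assoc _ (vecMulVec u u) Om,
    mul_assoc (vecMulVec u u) (Om * X) (vecMulVec u u), mul_vecMulVec, vecMulVec_mul_vecMulVec,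
    vecMulVec_smul, smul_mul_assoc]

theorem rk1_sq {K : Type*} [Field K] [CharZero K] {Om : Matrix B B K} (hOm : Omᵀ = -Om)
    (u : B → K) : rk1 Om u * rk1 Om u = 0 := by
  have h0 : u ⬝ᵥ (Om *ᵥ u) = 0 := by
    have h1 : u ⬝ᵥ (Om *ᵥ u) = -(u ⬝ᵥ (Om *ᵥ u)) := by
      nth_rewrite 1 [dotProduct_mulVec, ← mulVec_transpose, hOm, neg_mulVec, neg_dotProduct,
        dotProduct_comm]
      rfl
    have h2 : (2 : K) * (u ⬝ᵥ (Om *ᵥ u)) = 0 := by linear_combination h1
    exact (mul_eq_zero.1 h2).resolve_left two_ne_zero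
  have h1 := rk1_mid Om 1 u
  rw [mul_one, mul_one, h0, zero_smul] at h1
  exact h1

/-- An ideal of the symplectic Lie algebra contains all elements of rank one if it contains a
nonzero element. -/
theorem rk1_mem {K : Type*} [Field K] [CharZero K] {Om : Matrix B B K} (hOm : Omᵀ = -Om)
    (hOm2 : IsUnit Om) (L : Submodule K (Matrix B B K))
    (hL : ∀ X ∈ L, ∀ u, rk1 Om u * X - X * rk1 Om u ∈ L) {X : Matrix B B K} (hX : X ∈ L)
    (hXs : Xᵀ * Om + Om * X = 0) (hX0 : X ≠ 0) (w : B → K) : rk1 Om w ∈ L := by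
  -- the quadratic form
  set q : (B → K) → K := fun u => u ⬝ᵥ ((Om * X) *ᵥ u) with hq
  have h1 : ∀ u, q u ≠ 0 → rk1 Om u ∈ L := by
    intro u hu
    have h2 := hL _ (hL X hX u) u
    have h3 : rk1 Om u * (rk1 Om u * X - X * rk1 Om u) - (rk1 Om u * X - X * rk1 Om u) * rk1 Om u
        = (-2 * q u) • rk1 Om u := by
      have h4 : rk1 Om u * (rk1 Om u * X - X * rk1 Om u) -
          (rk1 Om u * X - X * rk1 Om u) * rk1 Om u = (rk1 Om u * rk1 Om u) * X -
            (2 : K) • (rk1 Om u * X * rk1 Om u) + X * (rk1 Om u * rk1 Om u) := by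
        rw [two_smul]
        noncomm_ring
      rw [h4, rk1_sq hOm, rk1_mid, zero_mul, mul_zero, add_zero, zero_sub, smul_smul, ← neg_smul,
        neg_mul]
    rw [h3] at h2
    have h5 : (-2 * q u)⁻¹ • ((-2 * q u) • rk1 Om u) ∈ L := Submodule.smul_mem _ _ h2
    rwa [smul_smul, inv_mul_cancel₀ (mul_ne_zero (by norm_num) hu), one_smul] at h5
  have hsym : (Om * X)ᵀ = Om * X := by
    rw [transpose_mul, hOm, mul_neg, eq_neg_of_add_eq_zero_left hXs, neg_neg]
  have hOX : Om * X ≠ 0 := by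
    intro h
    apply hX0
    obtain ⟨u, hu⟩ := hOm2
    rw [← hu] at h
    have h2 : ((u⁻¹ : (Matrix B B K)ˣ) : Matrix B B K) * ((u : Matrix B B K) * X) = X := by
      rw [← mul_assoc, Units.inv_mul, one_mul]
    rw [← h2, h, mul_zero]
  have hbil : ∀ u v, q (u + v) = q u + 2 * (u ⬝ᵥ ((Om * X) *ᵥ v)) + q v := by
    intro u v
    have h2 : v ⬝ᵥ ((Om * X) *ᵥ u) = u ⬝ᵥ ((Om * X) *ᵥ v) := by
      rw [dotProduct_comm, dotProduct_mulVec u, ← mulVec_transpose, hsym]
    simp only [hq, mulVec_add, dotProduct_add, add_dotProduct, h2]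
    ring
  obtain ⟨u0, hu0⟩ : ∃ u, q u ≠ 0 := by
    by_contra hcon
    push Not at hcon
    apply hOX
    ext i j
    have h2 := hbil (Pi.single i 1) (Pi.single j 1)
    rw [hcon, hcon, hcon, zero_add, add_zero] at h2
    have h3 := (mul_eq_zero.1 h2.symm).resolve_left two_ne_zero
    rw [mulVec_single_one, single_one_dotProduct] at h3
    exact h3
  have hu0L := h1 u0 hu0
  set β := u0 ⬝ᵥ ((Om * X) *ᵥ w) with hβ
  have hqt : ∀ t : K, q (t • u0 + w) = q u0 * t ^ 2 + 2 * β * t + q w := by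
    intro t
    rw [hbil]
    simp only [hq, hβ, smul_dotProduct, mulVec_smul, dotProduct_smul, smul_eq_mul]
    ring
  obtain ⟨t, ht1, ht2⟩ : ∃ t : K, q (t • u0 + w) ≠ 0 ∧ q ((-t) • u0 + w) ≠ 0 := by
    by_contra hcon
    push Not at hcon
    have h2 : (Polynomial.C (q u0) * Polynomial.X ^ 2 + Polynomial.C (2 * β) * Polynomial.X +
        Polynomial.C (q w)) * (Polynomial.C (q u0) * Polynomial.X ^ 2 +
          Polynomial.C (-(2 * β)) * Polynomial.X + Polynomial.C (q w)) = 0 := by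
      apply Polynomial.funext
      intro t
      rw [Polynomial.eval_mul, Polynomial.eval_zero]
      simp only [Polynomial.eval_add, Polynomial.eval_mul, Polynomial.eval_C, Polynomial.eval_pow,
        Polynomial.eval_X]
      by_cases h3 : q (t • u0 + w) = 0
      · rw [hqt] at h3
        rw [h3, zero_mul]
      · have h4 := hcon t h3
        rw [hqt] at h4
        have h5 : q u0 * t ^ 2 + -(2 * β) * t + q w = 0 := by linear_combination h4
        rw [h5, mul_zero]
    rcases mul_eq_zero.1 h2 with h3 | h3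
    · have h4 := congrArg (fun p => Polynomial.coeff p 2) h3
      simp at h4
      exact hu0 h4
    · have h4 := congrArg (fun p => Polynomial.coeff p 2) h3
      simp at h4
      exact hu0 h4
  have h2 := h1 _ ht1
  have h3 := h1 _ ht2
  have h4 : rk1 Om w = (2⁻¹ : K) • rk1 Om (t • u0 + w) + (2⁻¹ : K) • rk1 Om ((-t) • u0 + w) -
      (t ^ 2) • rk1 Om u0 := by
    unfold rk1
    rw [← smul_mul_assoc, ← smul_mul_assoc, ← smul_mul_assoc, ← add_mul, ← sub_mul]
    congr 1
    ext i j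
    simp only [Matrix.sub_apply, Matrix.add_apply, Matrix.smul_apply, vecMulVec_apply,
      Pi.add_apply, Pi.smul_apply, smul_eq_mul]
    ring
  rw [h4]
  exact Submodule.sub_mem _ (Submodule.add_mem _ (Submodule.smul_mem _ _ h2)
    (Submodule.smul_mem _ _ h3)) (Submodule.smul_mem _ _ hu0L)

end

variable {g : ℕ} {Z : Matrix (Fin g) (Fin g) ℂ}

theorem Om_unit (K : Type*) [CommRing K] : IsUnit (Om g K) := by
  refine ⟨⟨Om g K, -Om g K, ?_, ?_⟩, rfl⟩
  · rw [mul_neg, Om_sq, neg_neg]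
  · rw [neg_mul, Om_sq, neg_neg]

/-- Forms on four vectors that vanish on the rational Lagrangian subspaces. -/
theorem van_four (hZ : Zᵀ = Z) (hY : IsUnit (imM Z).det)
    (hrel : ∀ p : MvPolynomial (SI g) ℚ, p.totalDegree ≤ 3 →
      MvPolynomial.aeval (fun s : SI g => Z s.1.1 s.1.2) p = 0 → p = 0)
    {c : (Fin 4 → Fin g ⊕ Fin g) → ℚ} (hc : IsH (DZ Z) c) : Van c := by
  intro M hM A hA x hx
  rw [Fintype.card_fin] at hA
  obtain ⟨A', hAA', hA'⟩ : ∃ A' : Finset (Fin 4), A ⊆ A' ∧ A'.card = 1 := by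
    obtain ⟨A', h1, _, h2⟩ := Finset.exists_subsuperset_card_eq (Finset.subset_univ A)
      (n := 1) (by omega) (by simp)
    exact ⟨A', h1, h2⟩
  refine vanish_rat hZ hY hrel hc A' (by rw [hA']; simp) ?_ M hM x
    fun k hk => hx k fun h => hk (hAA' h)
  rw [Finset.card_compl, hA']
  simp

/-- The rational Lie algebra is an ideal of the symplectic Lie algebra. -/
theorem lie_ideal (hZ : Zᵀ = Z) (hpos : (imM Z).PosDef)
    (hrel : ∀ p : MvPolynomial (SI g) ℚ, p.totalDegree ≤ 3 →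
      MvPolynomial.aeval (fun s : SI g => Z s.1.1 s.1.2) p = 0 → p = 0)
    {X : Matrix (Fin g ⊕ Fin g) (Fin g ⊕ Fin g) ℚ} (hX : X ∈ lieM (DZ Z) ℚ)
    (u : Fin g ⊕ Fin g → ℚ) : rk1 (Om g ℚ) u * X - X * rk1 (Om g ℚ) u ∈ lieM (DZ Z) ℚ := by
  have hY : IsUnit (imM Z).det := hpos.isUnit.map Matrix.detMonoidHom
  obtain ⟨p, hp1, hp2, hp3⟩ := exists_projection (DZ Z) (trace_nondeg hZ hpos)
  have h1 : IsH (DZ Z) (theta p (Om g ℚ)) :=
    isH_of_rat _ fun X hX => act_theta_eq_zero (lie_sp hZ hX) (hp3 X hX)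
  have h2 : Van (theta p (Om g ℚ)) := van_four hZ hY hrel h1
  have h3 : act (rk1 (Om g ℚ) u) (theta p (Om g ℚ)) = 0 := h2.act_eq_zero (m := 2) (by simp) u
  have h4 := comm_of_act (Om_unit ℚ) (rk1_sp (Om_transpose ℚ) u) h3 X
  rw [hp2 X hX] at h4
  rw [← h4]
  exact hp1 _

/-- The rational Lie algebra is the symplectic Lie algebra. -/
theorem rk1_mem_lie (hZ : Zᵀ = Z) (hpos : (imM Z).PosDef)
    (hrel : ∀ p : MvPolynomial (SI g) ℚ, p.totalDegree ≤ 3 →
      MvPolynomial.aeval (fun s : SI g => Z s.1.1 s.1.2) p = 0 → p = 0)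
    (w : Fin g ⊕ Fin g → ℚ) : rk1 (Om g ℚ) w ∈ lieM (DZ Z) ℚ := by
  have hY : IsUnit (imM Z).det := hpos.isUnit.map Matrix.detMonoidHom
  by_cases hL : ∃ X ∈ lieM (DZ Z) ℚ, X ≠ 0
  · obtain ⟨X, hX, hX0⟩ := hL
    exact rk1_mem (Om_transpose ℚ) (Om_unit ℚ) _ (fun X hX u => lie_ideal hZ hpos hrel hX u) hX
      (lie_sp hZ hX) hX0 w
  · push Not at hL
    have h1 : DZ Z = 0 := by
      ext i j
      rw [Matrix.zero_apply]
      apply eq_zero_of_lam
      intro lam
      have h2 := hL _ (map_mem _ (D_mem (DZ Z)) lam)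
      exact congrFun (congrFun h2 i) j
    have h2 : ∀ y : Fin g ⊕ Fin g → ℂ, y = 0 := by
      intro y
      obtain ⟨a, b, hy, ha, hb⟩ := exists_eig hY y
      rw [h1, zero_mulVec] at ha hb
      rw [hy, ← hb, add_zero, ← neg_neg a, ← ha, neg_zero]
    have h3 : ∀ i : Fin g ⊕ Fin g, False := by
      intro i
      have := congrFun (h2 (Pi.single i 1)) i
      simp at this
    have h4 : rk1 (Om g ℚ) w = 0 := by
      ext i j
      exact (h3 i).elim
    rw [h4]
    exact Submodule.zero_mem _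

end Pool.Agent.W437.HC
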