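import Mathlib
import Pool.Agent.W437.HC.Hodge
import Pool.Agent.W437.HC.Sp

/-!
# Hodge classes are generated by divisor classes if the Lie algebra is symplectic
-/

set_option linter.unusedSectionVars false

namespace Pool.Agent.W437.HC

open Matrix Pool.Agent.H204R3.CM Pool.Agent.H204R3.SP Pool.Agent.H194R3.CM

/-- The alternation of a multilinear form which extends to an invariant real form is a Hodge
class. -/
theorem isHodge_alt {W T : Type*} [AddCommGroup W] [Module ℚ W] [AddCommGroup T] [Module ℂ T]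
    {per : W →+ T} {κ : Type*} [Fintype κ] [DecidableEq κ]
    {b : MultilinearMap ℚ (fun _ : κ => W) ℚ}
    (Ψ : MultilinearMap ℝ (fun _ : κ => T) ℝ) (h1 : ∀ v : κ → W, Ψ (fun l => per (v l)) = b v)
    (h2 : ∀ z : ℂ, ‖z‖ = 1 → ∀ u : κ → T, Ψ (fun l => z • u l) = Ψ u) :
    IsHodge per (MultilinearMap.alternatization b) := by
  refine ⟨(MultilinearMap.alternatization Ψ).toMultilinearMap, fun v => ?_, fun z hz u => ?_⟩
  · change MultilinearMap.alternatization Ψ _ = _
    rw [MultilinearMap.alternatization_apply, MultilinearMap.alternatization_apply, Rat.cast_sum]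
    refine Finset.sum_congr rfl fun σ _ => ?_
    rw [MultilinearMap.domDomCongr_apply, MultilinearMap.domDomCongr_apply, h1, Units.smul_def,
      Units.smul_def, zsmul_eq_mul, zsmul_eq_mul, Rat.cast_mul, Rat.cast_intCast]
  · change MultilinearMap.alternatization Ψ _ = MultilinearMap.alternatization Ψ _
    rw [MultilinearMap.alternatization_apply, MultilinearMap.alternatization_apply]
    refine Finset.sum_congr rfl fun σ _ => ?_
    rw [MultilinearMap.domDomCongr_apply, MultilinearMap.domDomCongr_apply]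
    rw [h2 z hz]

variable {g : ℕ} {Z : Matrix (Fin g) (Fin g) ℂ}

/-- The symplectic form between two factors of a power. -/
def omF {n : ℕ} (j0 j1 : Fin n) :
    (Fin n → Fin g ⊕ Fin g → ℚ) →ₗ[ℚ] (Fin n → Fin g ⊕ Fin g → ℚ) →ₗ[ℚ] ℚ :=
  LinearMap.mk₂ ℚ (fun u v => u j0 ⬝ᵥ (Om g ℚ *ᵥ v j1))
    (fun u u' v => by rw [Pi.add_apply, add_dotProduct])
    (fun a u v => by rw [Pi.smul_apply, smul_dotProduct])
    (fun u v v' => by rw [Pi.add_apply, mulVec_add, dotProduct_add])
    (fun a u v => by rw [Pi.smul_apply, mulVec_smul, dotProduct_smul])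

theorem omF_apply {n : ℕ} (j0 j1 : Fin n) (u v : Fin n → Fin g ⊕ Fin g → ℚ) :
    omF j0 j1 u v = u j0 ⬝ᵥ (Om g ℚ *ᵥ v j1) := rfl

/-- The real bilinear form on the tangent space. -/
noncomputable def omR (Z : Matrix (Fin g) (Fin g) ℂ) {n : ℕ} (j0 j1 : Fin n) :
    (Fin n → Fin g → ℂ) →ₗ[ℝ] (Fin n → Fin g → ℂ) →ₗ[ℝ] ℝ :=
  LinearMap.mk₂ ℝ (fun u v => (fun i => (u j0 i).re) ⬝ᵥ ((imM Z)⁻¹ *ᵥ (fun i => (v j1 i).im)) -
      (fun i => (u j0 i).im) ⬝ᵥ ((imM Z)⁻¹ *ᵥ (fun i => (v j1 i).re)))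
    (fun u u' v => by
      have e1 : (fun i => ((u + u') j0 i).re) = (fun i => (u j0 i).re) + fun i => (u' j0 i).re := by
        funext i; simp
      have e2 : (fun i => ((u + u') j0 i).im) = (fun i => (u j0 i).im) + fun i => (u' j0 i).im := by
        funext i; simp
      rw [e1, e2, add_dotProduct, add_dotProduct]
      ring)
    (fun a u v => by
      have e1 : (fun i => ((a • u) j0 i).re) = a • (fun i => (u j0 i).re) := by
        funext i; simp
      have e2 : (fun i => ((a • u) j0 i).im) = a • (fun i => (u j0 i).im) := by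
        funext i; simp
      rw [e1, e2, smul_dotProduct, smul_dotProduct, smul_sub])
    (fun u v v' => by
      have e1 : (fun i => ((v + v') j1 i).re) = (fun i => (v j1 i).re) + fun i => (v' j1 i).re := by
        funext i; simp
      have e2 : (fun i => ((v + v') j1 i).im) = (fun i => (v j1 i).im) + fun i => (v' j1 i).im := by
        funext i; simp
      rw [e1, e2, mulVec_add, mulVec_add, dotProduct_add, dotProduct_add]
      ring)
    (fun a u v => by
      have e1 : (fun i => ((a • v) j1 i).re) = a • (fun i => (v j1 i).re) := by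
        funext i; simp
      have e2 : (fun i => ((a • v) j1 i).im) = a • (fun i => (v j1 i).im) := by
        funext i; simp
      rw [e1, e2, mulVec_smul, mulVec_smul, dotProduct_smul, dotProduct_smul, smul_sub])

theorem omR_apply {n : ℕ} (j0 j1 : Fin n) (u v : Fin n → Fin g → ℂ) :
    omR Z j0 j1 u v = (fun i => (u j0 i).re) ⬝ᵥ ((imM Z)⁻¹ *ᵥ (fun i => (v j1 i).im)) -
      (fun i => (u j0 i).im) ⬝ᵥ ((imM Z)⁻¹ *ᵥ (fun i => (v j1 i).re)) := rfl

theorem omR_per (hZ : Zᵀ = Z) (hY : IsUnit (imM Z).det) {n : ℕ} (j0 j1 : Fin n)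
    (u v : Fin n → Fin g ⊕ Fin g → ℚ) :
    omR Z j0 j1 (perPow Z n u) (perPow Z n v) = ((omF j0 j1 u v : ℚ) : ℝ) := by
  have hre : ∀ (w : Fin n → Fin g ⊕ Fin g → ℚ) (j : Fin n), (fun i => (perPow Z n w j i).re) =
      (fun i => (w j (Sum.inl i) : ℝ)) + reM Z *ᵥ (fun k => (w j (Sum.inr k) : ℝ)) := by
    intro w j
    funext i
    rw [perPow_apply]
    simp [mulVec, dotProduct]
  have him : ∀ (w : Fin n → Fin g ⊕ Fin g → ℚ) (j : Fin n), (fun i => (perPow Z n w j i).im) =
      imM Z *ᵥ (fun k => (w j (Sum.inr k) : ℝ)) := by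
    intro w j
    funext i
    rw [perPow_apply]
    simp [mulVec, dotProduct]
  rw [omR_apply, hre, hre, him, him, omF_apply]
  set a : Fin g → ℝ := fun i => (u j0 (Sum.inl i) : ℝ) with ha
  set b : Fin g → ℝ := fun i => (u j0 (Sum.inr i) : ℝ) with hb
  set a' : Fin g → ℝ := fun i => (v j1 (Sum.inl i) : ℝ) with ha'
  set b' : Fin g → ℝ := fun i => (v j1 (Sum.inr i) : ℝ) with hb'
  have h1 : ((u j0 ⬝ᵥ (Om g ℚ *ᵥ v j1) : ℚ) : ℝ) = a ⬝ᵥ b' - b ⬝ᵥ a' := by
    simp [dotProduct, mulVec, Om, Fintype.sum_sum_type, ha, hb, ha', hb', Matrix.one_apply,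
      sub_eq_add_neg]
  rw [h1]
  have hX : ∀ x y : Fin g → ℝ, (reM Z *ᵥ x) ⬝ᵥ y = x ⬝ᵥ (reM Z *ᵥ y) := by
    intro x y
    rw [dotProduct_comm, dotProduct_mulVec, ← mulVec_transpose, reM_symm hZ, dotProduct_comm]
  have hYs : ∀ x y : Fin g → ℝ, (imM Z *ᵥ x) ⬝ᵥ y = x ⬝ᵥ (imM Z *ᵥ y) := by
    intro x y
    rw [dotProduct_comm, dotProduct_mulVec, ← mulVec_transpose, imM_symm hZ, dotProduct_comm]
  rw [mulVec_mulVec, nonsing_inv_mul _ hY, one_mulVec, hYs, mulVec_mulVec, mul_nonsing_inv _ hY,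
    one_mulVec, add_dotProduct, dotProduct_add, hX]
  ring

theorem omR_rotate {n : ℕ} (j0 j1 : Fin n) (z : ℂ) (hz : ‖z‖ = 1) (u v : Fin n → Fin g → ℂ) :
    omR Z j0 j1 (z • u) (z • v) = omR Z j0 j1 u v := by
  have hre : ∀ (w : Fin n → Fin g → ℂ) (j : Fin n), (fun i => ((z • w) j i).re) =
      z.re • (fun i => (w j i).re) - z.im • (fun i => (w j i).im) := by
    intro w j
    funext i
    simp
  have him : ∀ (w : Fin n → Fin g → ℂ) (j : Fin n), (fun i => ((z • w) j i).im) =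
      z.re • (fun i => (w j i).im) + z.im • (fun i => (w j i).re) := by
    intro w j
    funext i
    simp
  have hn : z.re ^ 2 + z.im ^ 2 = 1 := by
    have h := Complex.sq_norm z
    rw [hz, Complex.normSq_apply] at h
    nlinarith [h]
  rw [omR_apply, omR_apply, hre, hre, him, him]
  simp only [mulVec_add, mulVec_sub, mulVec_smul, dotProduct_add, dotProduct_sub, add_dotProduct,
    sub_dotProduct, smul_dotProduct, dotProduct_smul, smul_eq_mul]
  linear_combination ((fun i => (u j0 i).re) ⬝ᵥ ((imM Z)⁻¹ *ᵥ (fun i => (v j1 i).im)) -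
      (fun i => (u j0 i).im) ⬝ᵥ ((imM Z)⁻¹ *ᵥ (fun i => (v j1 i).re))) * hn

theorem isHodge_omF (hZ : Zᵀ = Z) (hY : IsUnit (imM Z).det) {n : ℕ} (j0 j1 : Fin n) :
    IsHodge (perPow Z n) (MultilinearMap.alternatization (bil2 (omF (g := g) j0 j1))) := by
  refine isHodge_alt (bil2 (omR Z j0 j1)) (fun v => ?_) (fun z hz u => ?_)
  · rw [bil2_apply, bil2_apply]
    exact omR_per hZ hY j0 j1 _ _
  · rw [bil2_apply, bil2_apply]
    exact omR_rotate j0 j1 z hz _ _

/-- The sum over all functions of a product over a matching. -/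
theorem sum_match {B κ K : Type*} [Fintype B] [DecidableEq B] [Fintype κ] [DecidableEq κ]
    [Field K] {m : ℕ} (e : Fin m × Fin 2 ≃ κ) (F : Fin m → B → B → K) :
    ∑ I : κ → B, ∏ s, F s (I (e (s, 0))) (I (e (s, 1))) = ∏ s, ∑ i, ∑ j, F s i j := by
  have h1 : ∏ s, ∑ i, ∑ j, F s i j = ∏ s, ∑ p : B × B, F s p.1 p.2 := by
    refine Finset.prod_congr rfl fun s _ => ?_
    rw [Fintype.sum_prod_type]
  rw [h1, Finset.prod_univ_sum, Fintype.piFinset_univ]
  let E : (κ → B) ≃ (Fin m → B × B) :=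
    { toFun := fun I s => (I (e (s, 0)), I (e (s, 1)))
      invFun := fun P k => if (e.symm k).2 = 0 then (P (e.symm k).1).1 else (P (e.symm k).1).2
      left_inv := by
        intro I
        funext k
        obtain ⟨⟨s, ε⟩, rfl⟩ := e.surjective k
        fin_cases ε <;> simp
      right_inv := by
        intro P
        funext s
        simp }
  exact Fintype.sum_equiv E _ _ fun I => rfl

theorem JJ_eq (x y : Fin g ⊕ Fin g) :
    JJ Sum.swap (Sum.elim (fun _ => (1 : ℚ)) (fun _ => -1)) x y = Om g ℚ x y := by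
  rcases x with x | x <;> rcases y with y | y
  · simp [JJ, Om]
  · simp [JJ, Om, Matrix.one_apply, eq_comm]
  · simp only [JJ, Om, Sum.swap_inr, Sum.inl.injEq, Sum.elim_inr, fromBlocks_apply₂₁,
      Matrix.neg_apply, Matrix.one_apply, eq_comm (a := y)]
    split_ifs <;> simp
  · simp [JJ, Om]

/-- The multilinear form given by coefficients. -/
def pF {n : ℕ} {κ : Type*} [Fintype κ] [DecidableEq κ] (t : κ → Fin n) :
    ((κ → Fin g ⊕ Fin g) → ℚ) →ₗ[ℚ] ((κ → Fin n → Fin g ⊕ Fin g → ℚ) → ℚ) where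
  toFun c := fun v => ∑ I, c I * ∏ k, v k (t k) (I k)
  map_add' c d := by
    funext v
    simp only [Pi.add_apply, add_mul, Finset.sum_add_distrib]
  map_smul' a c := by
    funext v
    simp only [Pi.smul_apply, smul_eq_mul, mul_assoc, Finset.mul_sum, RingHom.id_apply]

theorem pF_apply {n : ℕ} {κ : Type*} [Fintype κ] [DecidableEq κ] (t : κ → Fin n)
    (c : (κ → Fin g ⊕ Fin g) → ℚ) (v : κ → Fin n → Fin g ⊕ Fin g → ℚ) :
    pF t c v = ∑ I, c I * ∏ k, v k (t k) (I k) := rfl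

theorem sum_pF {n : ℕ} {κ : Type*} [Fintype κ] [DecidableEq κ]
    (f : (Fin n → Fin g ⊕ Fin g → ℚ) [⋀^κ]→ₗ[ℚ] ℚ) :
    (fun v => f v) = ∑ t : κ → Fin n, pF t (coe f t) := by
  funext v
  rw [Finset.sum_apply]
  have h1 : v = fun k => ∑ p : Fin n × (Fin g ⊕ Fin g),
      v k p.1 p.2 • (Pi.single p.1 (Pi.single p.2 1) : Fin n → Fin g ⊕ Fin g → ℚ) := by
    funext k
    funext j i
    rw [Finset.sum_apply, Finset.sum_apply, Finset.sum_eq_single (j, i)]
    · simp
    · rintro ⟨j', i'⟩ _ hne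
      rw [Pi.smul_apply, Pi.smul_apply]
      by_cases hj : j = j'
      · subst hj
        have hi : i ≠ i' := fun h => hne (by rw [h])
        rw [Pi.single_eq_same, Pi.single_eq_of_ne hi, smul_zero]
      · rw [Pi.single_eq_of_ne hj, Pi.zero_apply, smul_zero]
    · intro h
      exact absurd (Finset.mem_univ _) h
  have h2 : f v = ∑ r : κ → Fin n × (Fin g ⊕ Fin g),
      (∏ k, v k (r k).1 (r k).2) * coe f (fun k => (r k).1) (fun k => (r k).2) := by
    conv_lhs => rw [h1]
    change f.toMultilinearMap _ = _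
    rw [MultilinearMap.map_sum]
    refine Finset.sum_congr rfl fun r _ => ?_
    rw [MultilinearMap.map_smul_univ, smul_eq_mul]
    rfl
  rw [h2]
  simp only [pF_apply]
  rw [← Fintype.sum_prod_type' (f := fun (t : κ → Fin n) (I : κ → Fin g ⊕ Fin g) =>
    coe f t I * ∏ k, v k (t k) (I k))]
  let E : (κ → Fin n × (Fin g ⊕ Fin g)) ≃ (κ → Fin n) × (κ → Fin g ⊕ Fin g) :=
    { toFun := fun r => (fun k => (r k).1, fun k => (r k).2)
      invFun := fun p k => (p.1 k, p.2 k)
      left_inv := fun r => rfl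
      right_inv := fun p => rfl }
  exact Fintype.sum_equiv E _ _ fun r => mul_comm _ _

theorem pF_matF {n m : ℕ} (t : Fin m × Fin 2 → Fin n) (e : Equiv.Perm (Fin m × Fin 2)) :
    pF t (matF Sum.swap (Sum.elim (fun _ => (1 : ℚ)) (fun _ => -1)) (R := Fin g ⊕ Fin g) e) =
      fun v => ∏ s, bil2 (omF (g := g) (t (e (s, 0))) (t (e (s, 1)))) (fun ε => v (e (s, ε))) := by
  funext v
  rw [pF_apply]
  have h1 : ∀ I : Fin m × Fin 2 → Fin g ⊕ Fin g,
      matF Sum.swap (Sum.elim (fun _ => (1 : ℚ)) (fun _ => -1)) e I * ∏ k, v k (t k) (I k) =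
      ∏ s, (Om g ℚ (I (e (s, 0))) (I (e (s, 1))) * (v (e (s, 0)) (t (e (s, 0))) (I (e (s, 0))) *
        v (e (s, 1)) (t (e (s, 1))) (I (e (s, 1))))) := by
    intro I
    rw [← Equiv.prod_comp e (fun k => v k (t k) (I k)), Fintype.prod_prod_type]
    simp only [matF, Fin.prod_univ_two, JJ_eq]
    rw [← Finset.prod_mul_distrib]
  rw [Finset.sum_congr rfl (fun I _ => h1 I)]
  rw [sum_match e (fun s i j => Om g ℚ i j * (v (e (s, 0)) (t (e (s, 0))) i *
        v (e (s, 1)) (t (e (s, 1))) j))]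
  refine Finset.prod_congr rfl fun s _ => ?_
  rw [bil2_apply, omF_apply, dotProduct]
  refine Finset.sum_congr rfl fun i _ => ?_
  rw [mulVec, dotProduct, Finset.mul_sum]
  refine Finset.sum_congr rfl fun j _ => by ring

theorem mem_InvF {κ : Type*} [Fintype κ] [DecidableEq κ] {c : (κ → Fin g ⊕ Fin g) → ℚ}
    (h : ∀ u, act (rk1 (Om g ℚ) u) c = 0) :
    c ∈ InvF Sum.swap (Sum.elim (fun _ => (1 : ℚ)) (fun _ => -1)) κ := by
  intro b d I
  have h1 : act (vecMulVec (Pi.single b 1) (Pi.single d 1) * Om g ℚ +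
      vecMulVec (Pi.single d 1) (Pi.single b 1) * Om g ℚ) c = 0 := by
    have h2 : vecMulVec (Pi.single b 1) (Pi.single d 1) * Om g ℚ +
      vecMulVec (Pi.single d 1) (Pi.single b 1) * Om g ℚ =
        rk1 (Om g ℚ) (Pi.single b 1 + Pi.single d 1) - rk1 (Om g ℚ) (Pi.single b 1) -
          rk1 (Om g ℚ) (Pi.single d 1) := by
      unfold rk1
      rw [← add_mul, ← sub_mul, ← sub_mul]
      congr 1
      rw [vecMulVec_add, add_vecMulVec, add_vecMulVec]
      abel
    rw [h2, act_sub_left, act_sub_left, h, h, h, sub_zero, sub_zero]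
  have h3 := congrFun h1 I
  rw [Pi.zero_apply] at h3
  rw [← h3]
  simp only [act]
  refine Finset.sum_congr rfl fun k _ => ?_
  simp only [JJ_eq, Matrix.add_apply, vecMulVec_mul, vecMulVec_apply, single_vecMul, add_mul,
    Finset.sum_add_distrib]
  rw [Finset.sum_eq_single b, Finset.sum_eq_single d]
  · simp
    ring
  · intro j _ hj
    rw [Pi.single_eq_of_ne hj, zero_mul, zero_mul]
  · intro h
    exact absurd (Finset.mem_univ _) h
  · intro j _ hj
    rw [Pi.single_eq_of_ne hj, zero_mul, zero_mul]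
  · intro h
    exact absurd (Finset.mem_univ _) h

/-- If the forms killed by `DZ Z` are killed by the symplectic Lie algebra then all Hodge classes
are generated by divisor classes. -/
theorem mem_divisorial (hZ : Zᵀ = Z) (hY : IsUnit (imM Z).det)
    {n m : ℕ} (hk : ∀ c : (Fin m × Fin 2 → Fin g ⊕ Fin g) → ℚ, IsH (DZ Z) c →
      ∀ u, act (rk1 (Om g ℚ) u) c = 0)
    (f : (Fin n → Fin g ⊕ Fin g → ℚ) [⋀^Fin m × Fin 2]→ₗ[ℚ] ℚ)
    (hf : IsHodge (perPow Z n) f) : f ∈ divisorial (perPow Z n) m := by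
  have h1 := alt_span (R := ℚ) (W := Fin n → Fin g ⊕ Fin g → ℚ)
    (Set.range (fun p : Fin n × Fin n => bil2 (omF (g := g) p.1 p.2))) f ?_
  · refine Submodule.span_mono ?_ h1
    rintro F ⟨b, hb, hF⟩
    refine ⟨fun s => MultilinearMap.alternatization (b s), fun s => ?_, fun v => ?_⟩
    · obtain ⟨p, hp⟩ := hb s
      change IsHodge _ (MultilinearMap.alternatization (b s))
      rw [← hp]
      exact isHodge_omF hZ hY _ _
    · rw [hF v]
  · rw [sum_pF]
    refine Submodule.sum_mem _ fun t _ => ?_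
    have h2 := mem_InvF (hk _ (isH_coe Z hY hf t))
    have h3 := fft (inv := Sum.swap) (jj := Sum.elim (fun _ : Fin g => (1 : ℚ)) (fun _ => -1))
      Sum.swap_swap (by rintro (x | x) <;> simp) (by rintro (x | x) <;> simp) m (Fin m × Fin 2)
      (by simp [mul_comm]) h2
    have h4 : pF t (coe f t) ∈ (MatF Sum.swap
        (Sum.elim (fun _ : Fin g => (1 : ℚ)) (fun _ => -1)) (Fin m × Fin 2) m).map (pF t) :=
      Submodule.mem_map_of_mem h3
    unfold MatF at h4
    rw [Submodule.map_span] at h4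
    refine Submodule.span_mono ?_ h4
    rintro _ ⟨_, ⟨e, rfl⟩, rfl⟩
    exact ⟨e, _, fun s => ⟨(t (e (s, 0)), t (e (s, 1))), rfl⟩, pF_matF t e⟩

end Pool.Agent.W437.HC
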